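import Mathlib

/-!
# A point of a compact space that avoids measures but does not avoid ccc spaces

The point `x` lies in the closure of a (σ-linked) ccc subspace, but for every Radon probability
measure `μ` with `μ {x} = 0` it is outside the support of `μ`.
-/

namespace Pool.Agent.Results.MP_843a88_gt.AvoidMeasuresNotCCC

open Set MeasureTheory

/-! ## Definitions of the problem -/

/-- The countable chain condition: every family of pairwise disjoint nonempty open sets is
countable. -/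
def CCC (Y : Type*) [TopologicalSpace Y] : Prop :=
  ∀ 𝒰 : Set (Set Y), (∀ U ∈ 𝒰, IsOpen U ∧ U.Nonempty) →
    (∀ U ∈ 𝒰, ∀ V ∈ 𝒰, U ≠ V → U ∩ V = ∅) → 𝒰.Countable

/-- Radon probability measures. -/
structure IsRadonProb {X : Type*} [TopologicalSpace X] [MeasurableSpace X] (μ : Measure X) :
    Prop where
  prob : μ univ = 1
  inner : ∀ B, MeasurableSet B → μ B = ⨆ (K : Set X) (_ : IsCompact K) (_ : K ⊆ B), μ K
  outer : ∀ B, MeasurableSet B → μ B = ⨅ (U : Set X) (_ : IsOpen U) (_ : B ⊆ U), μ U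

/-- The support of a measure: the intersection of all closed sets of measure one. -/
def msupp {X : Type*} [TopologicalSpace X] [MeasurableSpace X] (μ : Measure X) : Set X :=
  ⋂₀ {C | IsClosed C ∧ μ C = 1}

/-- `x` avoids measures. -/
def AvoidsMeasures {X : Type*} [TopologicalSpace X] [MeasurableSpace X] (x : X) : Prop :=
  ∀ μ : Measure X, IsRadonProb μ → μ {x} = 0 → x ∉ msupp μ

/-- `x` avoids ccc spaces. -/
def AvoidsCCC {X : Type*} [TopologicalSpace X] (x : X) : Prop :=
  ∀ Y : Set X, CCC Y → x ∉ Y → x ∉ closure Y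

/-! ## The combinatorics -/

open Classical in
/-- Allowed finite sets of branches: few successors at each node. -/
def H (n : ℕ) (F : Finset (ℕ → ℕ)) : Prop :=
  ∀ (l : ℕ) (s : ℕ → ℕ),
    ((F.filter (fun α => ∀ i < l, α i = s i)).image (fun α => α l)).card ≤ l + n + 2

open Classical in
theorem H_of_card {n : ℕ} {F : Finset (ℕ → ℕ)} (h : F.card ≤ n) : H n F := by
  intro l s
  have h1 := Finset.card_image_le (s := F.filter (fun α => ∀ i < l, α i = s i))
    (f := fun α : ℕ → ℕ => α l)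
  have h2 := Finset.card_filter_le F (fun α => ∀ i < l, α i = s i)
  omega

/-- the restriction to the first `m` coordinates -/
def res (m : ℕ) (α : ℕ → ℕ) : List ℕ := (List.range m).map α

theorem res_eq {m : ℕ} {α β : ℕ → ℕ} (h : res m α = res m β) : ∀ i < m, α i = β i := by
  intro i hi
  unfold res at h
  rw [List.map_inj_left] at h
  exact h i (List.mem_range.2 hi)

theorem exists_sep (S : Finset (ℕ → ℕ)) :
    ∃ m, ∀ α ∈ S, ∀ β ∈ S, (∀ i < m, α i = β i) → α = β := by
  have h : ∀ p : (ℕ → ℕ) × (ℕ → ℕ), ∃ k, p.1 ≠ p.2 → ∃ i < k, p.1 i ≠ p.2 i := by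
    intro p
    by_cases hp : p.1 = p.2
    · exact ⟨0, fun h => absurd hp h⟩
    · obtain ⟨i, hi⟩ := Function.ne_iff.1 hp
      exact ⟨i + 1, fun _ => ⟨i, Nat.lt_succ_self i, hi⟩⟩
  choose d hd using h
  refine ⟨(S ×ˢ S).sup d, fun α hα β hβ hab => ?_⟩
  by_contra hne
  obtain ⟨i, hi, hi'⟩ := hd (α, β) hne
  exact hi' (hab i (lt_of_lt_of_le hi
    (Finset.le_sup (f := d) (Finset.mem_product.2 ⟨hα, hβ⟩))))

open Classical in
theorem H_union {n m : ℕ} {F F' : Finset (ℕ → ℕ)} (hF : H n F)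
    (h1 : ∀ α ∈ F, ∀ β ∈ F, (∀ i < m, α i = β i) → α = β)
    (h2 : ∀ α ∈ F', ∀ β ∈ F', (∀ i < m, α i = β i) → α = β)
    (h3 : F.image (res m) = F'.image (res m)) : H n (F ∪ F') := by
  intro l s
  by_cases hl : l < m
  · refine le_trans (Finset.card_le_card ?_) (hF l s)
    intro v hv
    rw [Finset.mem_image] at hv ⊢
    obtain ⟨α, hα, rfl⟩ := hv
    rw [Finset.mem_filter, Finset.mem_union] at hα
    rcases hα with ⟨hα | hα, hs⟩
    · exact ⟨α, Finset.mem_filter.2 ⟨hα, hs⟩, rfl⟩
    · have : res m α ∈ F.image (res m) := by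
        rw [h3]; exact Finset.mem_image_of_mem _ hα
      obtain ⟨β, hβ, hβα⟩ := Finset.mem_image.1 this
      have hr := res_eq hβα
      refine ⟨β, Finset.mem_filter.2 ⟨hβ, fun i hi => ?_⟩, hr l hl⟩
      rw [hr i (hi.trans hl)]
      exact hs i hi
  · push Not at hl
    have c1 : (F.filter (fun α => ∀ i < l, α i = s i)).card ≤ 1 := by
      rw [Finset.card_le_one]
      intro a ha b hb
      rw [Finset.mem_filter] at ha hb
      exact h1 a ha.1 b hb.1 fun i hi => by
        rw [ha.2 i (hi.trans_le hl), hb.2 i (hi.trans_le hl)]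
    have c2 : (F'.filter (fun α => ∀ i < l, α i = s i)).card ≤ 1 := by
      rw [Finset.card_le_one]
      intro a ha b hb
      rw [Finset.mem_filter] at ha hb
      exact h2 a ha.1 b hb.1 fun i hi => by
        rw [ha.2 i (hi.trans_le hl), hb.2 i (hi.trans_le hl)]
    have c3 : ((F ∪ F').filter (fun α => ∀ i < l, α i = s i)).card ≤ 2 := by
      rw [Finset.filter_union]
      exact le_trans (Finset.card_union_le _ _) (by omega)
    have c4 := Finset.card_image_le (s := (F ∪ F').filter (fun α => ∀ i < l, α i = s i))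
      (f := fun α : ℕ → ℕ => α l)
    omega

/-- Sequences of finite sets of size `o(n)`. -/
def Slow (E : ℕ → Finset (ℕ → ℕ)) : Prop := ∀ c : ℕ, ∃ N, ∀ n ≥ N, c * (E n).card ≤ n

theorem slow_empty : Slow (fun _ => ∅) := fun c => ⟨0, fun n _ => by simp⟩

theorem slow_single (E : ℕ → ℕ → ℕ) : Slow (fun n => {E n}) :=
  fun c => ⟨c, fun n hn => by simpa using hn⟩

open Classical in
theorem slow_union {E E' : ℕ → Finset (ℕ → ℕ)} (h : Slow E) (h' : Slow E') :
    Slow (fun n => E n ∪ E' n) := by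
  intro c
  obtain ⟨N, hN⟩ := h (2 * c)
  obtain ⟨N', hN'⟩ := h' (2 * c)
  refine ⟨max N N', fun n hn => ?_⟩
  have h1 := hN n (le_trans (le_max_left _ _) hn)
  have h2 := hN' n (le_trans (le_max_right _ _) hn)
  have h3 := Finset.card_union_le (E n) (E' n)
  have h4 : c * (E n ∪ E' n).card ≤ c * ((E n).card + (E' n).card) := Nat.mul_le_mul_left _ h3
  have h5 : 2 * (c * ((E n).card + (E' n).card)) ≤ 2 * n := by
    calc 2 * (c * ((E n).card + (E' n).card)) = 2 * c * (E n).card + 2 * c * (E' n).card := by ring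
      _ ≤ n + n := add_le_add h1 h2
      _ = 2 * n := by ring
  show c * (E n ∪ E' n).card ≤ n
  omega

open Classical in
theorem slow_biUnion {ι : Type*} (s : Finset ι) (E : ι → ℕ → Finset (ℕ → ℕ))
    (h : ∀ i ∈ s, Slow (E i)) : Slow (fun n => s.biUnion (fun i => E i n)) := by
  induction s using Finset.induction_on with
  | empty => simpa using slow_empty
  | insert a s ha ih =>
    have h1 : Slow (fun n => E a n ∪ s.biUnion (fun i => E i n)) :=
      slow_union (h a (Finset.mem_insert_self _ _))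
        (ih fun i hi => h i (Finset.mem_insert_of_mem hi))
    have h2 : (fun n => (insert a s).biUnion (fun i => E i n))
        = fun n => E a n ∪ s.biUnion (fun i => E i n) := by
      funext n
      rw [Finset.biUnion_insert]
    rw [h2]
    exact h1

open Classical in
theorem slow_diag (E : ℕ → ℕ → Finset (ℕ → ℕ)) (hE : ∀ k, Slow (E k)) :
    ∃ D, Slow D ∧ ∀ k, ∃ N, ∀ n ≥ N, E k n ⊆ D n := by
  set G : ℕ → ℕ → Finset (ℕ → ℕ) := fun k n => (Finset.range (k + 1)).biUnion (fun i => E i n)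
    with hG
  have hGs : ∀ k, Slow (G k) := fun k => slow_biUnion _ _ fun i _ => hE i
  set κ : ℕ → ℕ := fun n => Nat.findGreatest (fun k => ∀ m ≥ n, k * (G k m).card ≤ m) n with hκ
  have spec : ∀ n, ∀ m ≥ n, κ n * (G (κ n) m).card ≤ m := by
    intro n
    exact Nat.findGreatest_spec (P := fun k => ∀ m ≥ n, k * (G k m).card ≤ m) (m := 0)
      (Nat.zero_le n) (fun m _ => by simp)
  have large : ∀ c, ∃ N, ∀ n ≥ N, c ≤ κ n := by
    intro c
    obtain ⟨N, hN⟩ := hGs c c
    refine ⟨max N c, fun n hn => ?_⟩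
    exact Nat.le_findGreatest (le_trans (le_max_right _ _) hn)
      (fun m hm => hN m (le_trans (le_trans (le_max_left _ _) hn) hm))
  refine ⟨fun n => G (κ n) n, fun c => ?_, fun k => ?_⟩
  · obtain ⟨N, hN⟩ := large c
    exact ⟨N, fun n hn => le_trans (Nat.mul_le_mul_right _ (hN n hn)) (spec n n le_rfl)⟩
  · obtain ⟨N, hN⟩ := large k
    refine ⟨N, fun n hn => ?_⟩
    exact Finset.subset_biUnion_of_mem (fun i => E i n)
      (Finset.mem_range.2 (Nat.lt_succ_of_le (hN n hn)))

/-! ## The space -/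

/-- the points of the dense ccc subspace -/
def Y : Type := {y : ℕ × Finset (ℕ → ℕ) // H y.1 y.2}

/-- the index set of the ambient Cantor cube -/
abbrev Idx : Type := {E : ℕ → Finset (ℕ → ℕ) // Slow E} ⊕ ℕ

open Classical in
/-- the embedding of `Y` into the cube -/
noncomputable def e (y : Y) : Idx → Bool
  | Sum.inl E => decide (E.1 y.1.1 ⊆ y.1.2)
  | Sum.inr n => decide (y.1.1 = n)

/-- the compact space -/
def X : Type := {p : Idx → Bool // p ∈ closure (Set.range e)}

instance : TopologicalSpace X := instTopologicalSpaceSubtype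

instance : MeasurableSpace X := borel X

instance : BorelSpace X := ⟨rfl⟩

theorem compactSpace_X : CompactSpace X :=
  isCompact_iff_compactSpace.1 (isClosed_closure (s := Set.range e)).isCompact

theorem t2Space_X : T2Space X := inferInstanceAs (T2Space {p : Idx → Bool // _})

theorem approx (p : X) (I : Finset Idx) : ∃ y : Y, ∀ j ∈ I, e y j = p.1 j := by
  have hopen : IsOpen (Set.pi (I : Set Idx) (fun j => ({p.1 j} : Set Bool))) :=
    isOpen_set_pi I.finite_toSet (fun j _ => isOpen_discrete _)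
  have hmem : p.1 ∈ Set.pi (I : Set Idx) (fun j => ({p.1 j} : Set Bool)) := fun j _ => rfl
  obtain ⟨q, hq, y, rfl⟩ := mem_closure_iff.1 p.2 _ hopen hmem
  exact ⟨y, fun j hj => hq j hj⟩

theorem basicnhd {U : Set (Idx → Bool)} (hU : IsOpen U) {p : Idx → Bool} (hp : p ∈ U) :
    ∃ I : Finset Idx, ∀ q : Idx → Bool, (∀ j ∈ I, q j = p j) → q ∈ U := by
  obtain ⟨I, u, h1, h2⟩ := isOpen_pi_iff.1 hU p hp
  refine ⟨I, fun q hq => h2 ?_⟩
  intro j hj
  rw [hq j hj]
  exact (h1 j hj).2

/-- the sequence of finite sets attached to an index -/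
def part : Idx → ℕ → Finset (ℕ → ℕ)
  | Sum.inl E => E.1
  | Sum.inr _ => fun _ => ∅

theorem slow_part (j : Idx) : Slow (part j) := by
  rcases j with E | n
  · exact E.2
  · exact slow_empty

open Classical in
/-- union of the finite sets attached to finitely many indices -/
noncomputable def cup (I : Finset Idx) (n : ℕ) : Finset (ℕ → ℕ) := I.biUnion (fun j => part j n)

theorem slow_cup (I : Finset Idx) : Slow (cup I) := slow_biUnion _ _ fun j _ => slow_part j

open Classical in
theorem sub_cup {I : Finset Idx} {E : {E : ℕ → Finset (ℕ → ℕ) // Slow E}}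
    (h : (Sum.inl E : Idx) ∈ I) (n : ℕ) : E.1 n ⊆ cup I n :=
  Finset.subset_biUnion_of_mem (fun j => part j n) h

/-- level bound -/
def lev : Idx → ℕ
  | Sum.inl _ => 0
  | Sum.inr m => m + 1

theorem lev_lt {I : Finset Idx} {m : ℕ} (h : (Sum.inr m : Idx) ∈ I) : m < I.sup lev :=
  Nat.lt_of_succ_le (Finset.le_sup (f := lev) h)

/-- the special point -/
def x0 : Idx → Bool
  | Sum.inl _ => true
  | Sum.inr _ => false

theorem x0_approx (I : Finset Idx) : ∃ y : Y, ∀ j ∈ I, e y j = x0 j := by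
  obtain ⟨N, hN⟩ := slow_cup I 1
  set n := max N (I.sup lev) with hn
  have hc : (cup I n).card ≤ n := by simpa using hN n (le_max_left _ _)
  refine ⟨⟨(n, cup I n), H_of_card hc⟩, fun j hj => ?_⟩
  rcases j with E | m
  · simp only [e, x0, decide_eq_true_eq]
    exact sub_cup hj n
  · simp only [e, x0, decide_eq_false_iff_not]
    have := lev_lt hj
    have h2 : I.sup lev ≤ n := le_max_right _ _
    omega

theorem x0_mem : x0 ∈ closure (Set.range e) := by
  rw [mem_closure_iff]
  intro U hU hx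
  obtain ⟨I, hI⟩ := basicnhd hU hx
  obtain ⟨y, hy⟩ := x0_approx I
  exact ⟨e y, hI _ hy, y, rfl⟩

/-- the special point of the compact space -/
def x : X := ⟨x0, x0_mem⟩

/-- the point of the compact space given by a point of `Y` -/
noncomputable def pt (y : Y) : X := ⟨e y, subset_closure ⟨y, rfl⟩⟩

theorem x_not_mem : x ∉ Set.range pt := by
  rintro ⟨y, hy⟩
  have h1 : e y (Sum.inr y.1.1) = x0 (Sum.inr y.1.1) := by
    have := congrArg (fun p : X => p.1 (Sum.inr y.1.1)) hy
    exact this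
  simp [e, x0] at h1

theorem x_mem_closure : x ∈ closure (Set.range pt) := by
  rw [mem_closure_iff]
  intro U hU hx
  obtain ⟨V, hV, rfl⟩ := isOpen_induced_iff.1 hU
  obtain ⟨I, hI⟩ := basicnhd hV hx
  obtain ⟨y, hy⟩ := x0_approx I
  exact ⟨pt y, hI _ hy, y, rfl⟩

/-! ## The dense subspace is ccc -/

theorem good {U : Set (Set.range pt)} (hU : IsOpen U) (hne : U.Nonempty) :
    ∃ (n : ℕ) (F G : Finset (ℕ → ℕ)), H n F ∧ Disjoint F G ∧
      ∀ (F' : Finset (ℕ → ℕ)) (hF' : H n F'), F ⊆ F' → Disjoint F' G →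
        (⟨pt ⟨(n, F'), hF'⟩, ⟨_, rfl⟩⟩ : Set.range pt) ∈ U := by
  classical
  obtain ⟨⟨q, y, rfl⟩, hq⟩ := hne
  obtain ⟨V, hV, rfl⟩ := isOpen_induced_iff.1 hU
  obtain ⟨W, hW, rfl⟩ := isOpen_induced_iff.1 hV
  obtain ⟨I, hI⟩ := basicnhd hW hq
  obtain ⟨⟨n, F⟩, hF⟩ := y
  refine ⟨n, F, cup I n \ F, hF, Finset.disjoint_sdiff, fun F' hF' hsub hdis => ?_⟩
  refine hI _ fun j hj => ?_
  rcases j with E | m
  · have hE := sub_cup hj n
    show decide (E.1 n ⊆ F') = decide (E.1 n ⊆ F)
    rw [decide_eq_decide]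
    constructor
    · intro h a ha
      by_contra haF
      exact Finset.disjoint_left.1 hdis (h ha) (Finset.mem_sdiff.2 ⟨hE ha, haF⟩)
    · intro h
      exact h.trans hsub
  · rfl

theorem ccc_range : CCC (Set.range pt) := by
  classical
  intro 𝒰 h𝒰 hdis
  have hg : ∀ U : 𝒰, ∃ (n : ℕ) (F G : Finset (ℕ → ℕ)) (m : ℕ), H n F ∧ Disjoint F G ∧
      (∀ (F' : Finset (ℕ → ℕ)) (hF' : H n F'), F ⊆ F' → Disjoint F' G →
        (⟨pt ⟨(n, F'), hF'⟩, ⟨_, rfl⟩⟩ : Set.range pt) ∈ U.1) ∧
      (∀ α ∈ F ∪ G, ∀ β ∈ F ∪ G, (∀ i < m, α i = β i) → α = β) := by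
    intro U
    obtain ⟨n, F, G, h1, h2, h3⟩ := good (h𝒰 U.1 U.2).1 (h𝒰 U.1 U.2).2
    obtain ⟨m, hm⟩ := exists_sep (F ∪ G)
    exact ⟨n, F, G, m, h1, h2, h3, hm⟩
  choose n F G m h1 h2 h3 h4 using hg
  have hinj : Function.Injective (fun U : 𝒰 =>
      ((n U, m U, (F U).image (res (m U)), (G U).image (res (m U))) :
        ℕ × ℕ × Finset (List ℕ) × Finset (List ℕ))) := by
    intro U V hUV
    simp only [Prod.mk.injEq] at hUV
    obtain ⟨e1, e2, e3, e4⟩ := hUV
    by_contra hne
    have hne' : U.1 ≠ V.1 := fun h => hne (Subtype.ext h)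
    have hem := hdis U.1 U.2 V.1 V.2 hne'
    rw [← e2] at e3 e4
    have h4V := h4 V
    rw [← e2] at h4V
    have hH : H (n U) (F U ∪ F V) :=
      H_union (h1 U)
        (fun α hα β hβ => h4 U α (Finset.mem_union_left _ hα) β (Finset.mem_union_left _ hβ))
        (fun α hα β hβ => h4V α (Finset.mem_union_left _ hα) β (Finset.mem_union_left _ hβ)) e3
    have d1 : Disjoint (F U ∪ F V) (G U) := by
      rw [Finset.disjoint_union_left]
      refine ⟨h2 U, Finset.disjoint_left.2 fun a ha ha' => ?_⟩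
      have : res (m U) a ∈ (F U).image (res (m U)) := by
        rw [e3]; exact Finset.mem_image_of_mem _ ha
      obtain ⟨b, hb, hba⟩ := Finset.mem_image.1 this
      have := h4 U b (Finset.mem_union_left _ hb) a (Finset.mem_union_right _ ha') (res_eq hba)
      subst this
      exact Finset.disjoint_left.1 (h2 U) hb ha'
    have d2 : Disjoint (F U ∪ F V) (G V) := by
      rw [Finset.disjoint_union_left]
      refine ⟨Finset.disjoint_left.2 fun a ha ha' => ?_, h2 V⟩
      have : res (m U) a ∈ (F V).image (res (m U)) := by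
        rw [← e3]; exact Finset.mem_image_of_mem _ ha
      obtain ⟨b, hb, hba⟩ := Finset.mem_image.1 this
      have := h4V b (Finset.mem_union_left _ hb) a (Finset.mem_union_right _ ha') (res_eq hba)
      subst this
      exact Finset.disjoint_left.1 (h2 V) hb ha'
    have m1 := h3 U (F U ∪ F V) hH Finset.subset_union_left d1
    have hHV : H (n V) (F U ∪ F V) := e1 ▸ hH
    have m2 := h3 V (F U ∪ F V) hHV Finset.subset_union_right d2
    have heq : (⟨pt ⟨(n U, F U ∪ F V), hH⟩, ⟨_, rfl⟩⟩ : Set.range pt)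
        = ⟨pt ⟨(n V, F U ∪ F V), hHV⟩, ⟨_, rfl⟩⟩ := by
      apply Subtype.ext
      show pt ⟨(n U, F U ∪ F V), hH⟩ = pt ⟨(n V, F U ∪ F V), hHV⟩
      congr 1
      apply Subtype.ext
      show (n U, F U ∪ F V) = (n V, F U ∪ F V)
      rw [e1]
    rw [← heq] at m2
    have : (⟨pt ⟨(n U, F U ∪ F V), hH⟩, ⟨_, rfl⟩⟩ : Set.range pt) ∈ U.1 ∩ V.1 := ⟨m1, m2⟩
    rw [hem] at this
    exact this
  have := hinj.countable
  exact Set.to_countable 𝒰

/-! ## The point avoids measures -/

/-- the clopen set given by an index -/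
def Cl (j : Idx) : Set X := {p | p.1 j = true}

theorem isClopen_Cl (j : Idx) : IsClopen (Cl j) := by
  have hc : Continuous (fun p : X => p.1 j) := (continuous_apply j).comp continuous_subtype_val
  exact (isClopen_discrete ({true} : Set Bool)).preimage hc

theorem meas_Cl (j : Idx) : MeasurableSet (Cl j) := (isClopen_Cl j).isClosed.measurableSet

/-- constant sequence -/
def cst (α : ℕ → ℕ) : Idx := Sum.inl ⟨fun _ => {α}, slow_single _⟩

/-- the set of points in the level `n` containing `α` -/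
def T (n : ℕ) (α : ℕ → ℕ) : Set X := Cl (cst α) ∩ Cl (Sum.inr n)

theorem meas_T (n : ℕ) (α : ℕ → ℕ) : MeasurableSet (T n α) := (meas_Cl _).inter (meas_Cl _)

theorem T_bound {n l : ℕ} {s : ℕ → ℕ} {α : ℕ → ℕ → ℕ} (h1 : ∀ i, ∀ j < l, α i j = s j)
    (h2 : ∀ i, α i l = i) (p : X) (P : Finset ℕ) (hP : ∀ i ∈ P, p ∈ T n (α i)) :
    P.card ≤ l + n + 2 := by
  classical
  obtain ⟨y, hy⟩ := approx p (insert (Sum.inr n) (P.image fun i => cst (α i)))
  rcases P.eq_empty_or_nonempty with rfl | ⟨i0, hi0⟩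
  · simp
  have hn : y.1.1 = n := by
    have h := hy (Sum.inr n) (Finset.mem_insert_self _ _)
    have h' : p.1 (Sum.inr n) = true := (hP i0 hi0).2
    rw [h'] at h
    simpa [e] using h
  have hmem : ∀ i ∈ P, α i ∈ y.1.2 := by
    intro i hi
    have h := hy (cst (α i)) (Finset.mem_insert_of_mem (Finset.mem_image_of_mem _ hi))
    have h' : p.1 (cst (α i)) = true := (hP i hi).1
    rw [h'] at h
    simpa [e, cst] using h
  have hH := y.2 l s
  rw [hn] at hH
  refine le_trans (Finset.card_le_card ?_) hH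
  intro i hi
  rw [Finset.mem_image]
  exact ⟨α i, Finset.mem_filter.2 ⟨hmem i hi, h1 i⟩, h2 i⟩

open Classical in
theorem exists_null (μ : Measure X) (hμ : μ univ = 1) (n : ℕ) : ∃ α, μ (T n α) = 0 := by
  by_contra hcon
  push Not at hcon
  set A : ℕ → Set (ℕ → ℕ) := fun j => {α | ((j : ENNReal))⁻¹ < μ (T n α)} with hA
  have hcov : (⋃ j, closure (A j)) = univ := by
    rw [eq_univ_iff_forall]
    intro α
    obtain ⟨j, hj⟩ := ENNReal.exists_inv_nat_lt (hcon α)
    exact mem_iUnion.2 ⟨j, subset_closure hj⟩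
  obtain ⟨j, β, hβ⟩ := nonempty_interior_of_iUnion_of_closed (fun j => isClosed_closure) hcov
  obtain ⟨I, u, hu1, hu2⟩ := isOpen_pi_iff.1 (isOpen_interior (s := closure (A j))) β hβ
  set l := I.sup (fun i => i + 1) with hl
  have hin : ∀ γ : ℕ → ℕ, (∀ i < l, γ i = β i) → γ ∈ closure (A j) := by
    intro γ hγ
    apply interior_subset
    apply hu2
    intro i hi
    have : i < l := Nat.lt_of_succ_le (Finset.le_sup (f := fun i => i + 1) hi)
    rw [hγ i this]
    exact (hu1 i hi).2
  have hex : ∀ i : ℕ, ∃ γ : ℕ → ℕ, γ ∈ A j ∧ (∀ k < l, γ k = β k) ∧ γ l = i := by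
    intro i
    set γ0 : ℕ → ℕ := fun k => if k < l then β k else i with hγ0
    have hmem : γ0 ∈ closure (A j) := hin γ0 fun k hk => by simp [hγ0, hk]
    have hopen : IsOpen (Set.pi ((Finset.range (l + 1) : Finset ℕ) : Set ℕ)
        (fun k => ({γ0 k} : Set ℕ))) :=
      isOpen_set_pi (Finset.finite_toSet _) (fun k _ => isOpen_discrete _)
    obtain ⟨γ, hγ1, hγ2⟩ := mem_closure_iff.1 hmem _ hopen (fun k _ => rfl)
    refine ⟨γ, hγ2, fun k hk => ?_, ?_⟩
    · have := hγ1 k (by simpa using hk.le.trans_lt (Nat.lt_succ_self l))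
      simp only [mem_singleton_iff] at this
      rw [this]; simp [hγ0, hk]
    · have := hγ1 l (by simp)
      simp only [mem_singleton_iff] at this
      rw [this]; simp [hγ0]
  choose α hα1 hα2 hα3 using hex
  have hj0 : j ≠ 0 := by
    rintro rfl
    have := hα1 0
    simp [hA] at this
  set k := j * (l + n + 3) with hk
  have hsum : ∑ i ∈ Finset.range k, μ (T n (α i)) ≤ ((l + n + 2 : ℕ) : ENNReal) := by
    calc ∑ i ∈ Finset.range k, μ (T n (α i))
        = ∑ i ∈ Finset.range k, ∫⁻ p, (T n (α i)).indicator (fun _ => (1 : ENNReal)) p ∂μ := by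
          refine Finset.sum_congr rfl fun i _ => ?_
          rw [lintegral_indicator (meas_T n (α i))]
          simp
      _ = ∫⁻ p, ∑ i ∈ Finset.range k, (T n (α i)).indicator (fun _ => (1 : ENNReal)) p ∂μ := by
          rw [lintegral_finsetSum]
          intro i _
          exact measurable_const.indicator (meas_T n (α i))
      _ ≤ ∫⁻ _, ((l + n + 2 : ℕ) : ENNReal) ∂μ := by
          refine lintegral_mono fun p => ?_
          have h1 : ∑ i ∈ Finset.range k, (T n (α i)).indicator (fun _ => (1 : ENNReal)) p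
              = (((Finset.range k).filter fun i => p ∈ T n (α i)).card : ENNReal) := by
            rw [Finset.card_filter]
            push_cast
            refine Finset.sum_congr rfl fun i _ => ?_
            simp [Set.indicator_apply]
          rw [h1]
          have h2 := T_bound (n := n) hα2 hα3 p ((Finset.range k).filter fun i => p ∈ T n (α i))
            (fun i hi => (Finset.mem_filter.1 hi).2)
          exact Nat.cast_le.2 h2
      _ = ((l + n + 2 : ℕ) : ENNReal) := by
          rw [lintegral_const, hμ, mul_one]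
  have hlow : (k : ENNReal) * (j : ENNReal)⁻¹ ≤ ∑ i ∈ Finset.range k, μ (T n (α i)) := by
    calc (k : ENNReal) * (j : ENNReal)⁻¹ = ∑ _i ∈ Finset.range k, (j : ENNReal)⁻¹ := by
          simp
      _ ≤ ∑ i ∈ Finset.range k, μ (T n (α i)) :=
          Finset.sum_le_sum fun i _ => le_of_lt (hα1 i)
  have hkj : (k : ENNReal) * (j : ENNReal)⁻¹ = ((l + n + 3 : ℕ) : ENNReal) := by
    rw [hk, Nat.cast_mul, mul_comm (j : ENNReal), mul_assoc, ENNReal.mul_inv_cancel, mul_one]
    · exact_mod_cast hj0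
    · exact ENNReal.natCast_ne_top j
  rw [hkj] at hlow
  have := hlow.trans hsum
  rw [Nat.cast_le] at this
  omega

/-- the points outside all levels -/
def R : Set X := ⋂ n, (Cl (Sum.inr n))ᶜ

theorem meas_R : MeasurableSet R := MeasurableSet.iInter fun n => (meas_Cl _).compl

open Classical in
theorem main_R {D E : {E : ℕ → Finset (ℕ → ℕ) // Slow E}} {N : ℕ}
    (h : ∀ n ≥ N, E.1 n ⊆ D.1 n) {p : X} (hp : p ∈ Cl (Sum.inl D)) (hR : p ∈ R) :
    p ∈ Cl (Sum.inl E) := by
  obtain ⟨y, hy⟩ := approx p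
    (insert (Sum.inl D) (insert (Sum.inl E) ((Finset.range N).image Sum.inr)))
  have h1 := hy (Sum.inl D) (Finset.mem_insert_self _ _)
  have h2 := hy (Sum.inl E) (Finset.mem_insert_of_mem (Finset.mem_insert_self _ _))
  have h3 : N ≤ y.1.1 := by
    by_contra hlt
    push Not at hlt
    have h4 := hy (Sum.inr y.1.1) (Finset.mem_insert_of_mem (Finset.mem_insert_of_mem
      (Finset.mem_image_of_mem _ (Finset.mem_range.2 hlt))))
    have h5 : p.1 (Sum.inr y.1.1) ≠ true := mem_iInter.1 hR y.1.1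
    rw [← h4] at h5
    simp [e] at h5
  have h6 : D.1 y.1.1 ⊆ y.1.2 := by
    have : p.1 (Sum.inl D) = true := hp
    rw [this] at h1
    simpa [e] using h1
  show p.1 (Sum.inl E) = true
  rw [← h2]
  simp only [e, decide_eq_true_eq]
  exact (h _ h3).trans h6

theorem sub_T {D : {E : ℕ → Finset (ℕ → ℕ) // Slow E}} {n : ℕ} {α : ℕ → ℕ} (h : α ∈ D.1 n) :
    Cl (Sum.inl D) ∩ Cl (Sum.inr n) ⊆ T n α := by
  classical
  rintro p ⟨hp1, hp2⟩
  refine ⟨?_, hp2⟩
  obtain ⟨y, hy⟩ := approx p (insert (Sum.inl D) (insert (cst α) {Sum.inr n}))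
  have h1 := hy (Sum.inl D) (by simp)
  have h2 := hy (cst α) (by simp)
  have h3 := hy (Sum.inr n) (by simp)
  have hn : y.1.1 = n := by
    have : p.1 (Sum.inr n) = true := hp2
    rw [this] at h3
    simpa [e] using h3
  have hD : D.1 y.1.1 ⊆ y.1.2 := by
    have : p.1 (Sum.inl D) = true := hp1
    rw [this] at h1
    simpa [e] using h1
  show p.1 (cst α) = true
  rw [← h2]
  simp only [e, cst, decide_eq_true_eq]
  rw [hn] at hD
  exact Finset.singleton_subset_iff.2 (hD h)

theorem exists_nbhd (U : Set X) (hU : IsOpen U) (hx : x ∈ U) :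
    ∃ E : {E : ℕ → Finset (ℕ → ℕ) // Slow E}, Cl (Sum.inl E) ∩ R ⊆ U := by
  classical
  obtain ⟨V, hV, rfl⟩ := isOpen_induced_iff.1 hU
  obtain ⟨I, hI⟩ := basicnhd hV hx
  refine ⟨⟨cup I, slow_cup I⟩, ?_⟩
  rintro p ⟨hp1, hp2⟩
  refine hI _ fun j hj => ?_
  rcases j with E | m
  · exact main_R (D := ⟨cup I, slow_cup I⟩) (E := E) (N := 0)
      (fun n _ => sub_cup hj n) hp1 hp2
  · have h5 : p.1 (Sum.inr m) ≠ true := mem_iInter.1 hp2 m
    show p.1 (Sum.inr m) = false
    simpa using h5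

theorem avoids : AvoidsMeasures x := by
  classical
  have := t2Space_X
  have := compactSpace_X
  intro μ hμ hx hsupp
  -- neighbourhoods of small measure
  have hU : ∀ k : ℕ, ∃ U : Set X, IsOpen U ∧ x ∈ U ∧ μ U < ((k : ENNReal) + 1)⁻¹ := by
    intro k
    have h := hμ.outer {x} (isClosed_singleton.measurableSet)
    rw [hx] at h
    have hpos : (0 : ENNReal) < ((k : ENNReal) + 1)⁻¹ := by
      rw [ENNReal.inv_pos]
      exact ENNReal.add_ne_top.2 ⟨ENNReal.natCast_ne_top k, ENNReal.one_ne_top⟩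
    rw [h] at hpos
    simp only [iInf_lt_iff] at hpos
    obtain ⟨U, hU1, hU2, hU3⟩ := hpos
    exact ⟨U, hU1, hU2 rfl, hU3⟩
  choose U hU1 hU2 hU3 using hU
  have hE : ∀ k, ∃ E : {E : ℕ → Finset (ℕ → ℕ) // Slow E}, Cl (Sum.inl E) ∩ R ⊆ U k :=
    fun k => exists_nbhd (U k) (hU1 k) (hU2 k)
  choose E hE using hE
  obtain ⟨D, hD1, hD2⟩ := slow_diag (fun k => (E k).1) (fun k => (E k).2)
  -- null elements in the levels
  have hα : ∀ n, ∃ α, μ (T n α) = 0 := fun n => exists_null μ hμ.prob n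
  choose α hα using hα
  set D' : {E : ℕ → Finset (ℕ → ℕ) // Slow E} := ⟨fun n => D n ∪ {α n},
    slow_union hD1 (slow_single α)⟩ with hD'
  have hzero1 : μ (Cl (Sum.inl D') ∩ R) = 0 := by
    have hle : ∀ k : ℕ, μ (Cl (Sum.inl D') ∩ R) ≤ ((k : ENNReal) + 1)⁻¹ := by
      intro k
      refine le_trans (measure_mono ?_) (hU3 k).le
      rintro p ⟨hp1, hp2⟩
      obtain ⟨N, hN⟩ := hD2 k
      exact hE k ⟨main_R (D := D') (E := E k) (N := N)
        (fun n hn => (hN n hn).trans Finset.subset_union_left) hp1 hp2, hp2⟩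
    by_contra hne
    obtain ⟨k, hk⟩ := ENNReal.exists_inv_nat_lt hne
    have h1 := hle k
    have h2 : ((k : ENNReal) + 1)⁻¹ ≤ (k : ENNReal)⁻¹ :=
      ENNReal.inv_le_inv.2 le_self_add
    exact absurd (h1.trans h2) (not_le.2 hk)
  have hzero2 : ∀ n, μ (Cl (Sum.inl D') ∩ Cl (Sum.inr n)) = 0 := by
    intro n
    refine measure_mono_null (sub_T (D := D') (n := n) (α := α n) ?_) (hα n)
    simp [hD']
  have hzero : μ (Cl (Sum.inl D')) = 0 := by
    have hsub : Cl (Sum.inl D') ⊆ (Cl (Sum.inl D') ∩ R) ∪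
        ⋃ n, (Cl (Sum.inl D') ∩ Cl (Sum.inr n)) := by
      intro p hp
      by_cases hR : p ∈ R
      · exact Or.inl ⟨hp, hR⟩
      · right
        have : ∃ n, p ∈ Cl (Sum.inr n) := by
          by_contra hcon
          push Not at hcon
          exact hR (mem_iInter.2 fun n => hcon n)
        obtain ⟨n, hn⟩ := this
        exact mem_iUnion.2 ⟨n, hp, hn⟩
    refine measure_mono_null hsub ?_
    rw [measure_union_null_iff]
    exact ⟨hzero1, measure_iUnion_null hzero2⟩
  have hC : μ (Cl (Sum.inl D'))ᶜ = 1 := by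
    rw [measure_compl (meas_Cl _) (by rw [hzero]; exact ENNReal.zero_ne_top), hzero, hμ.prob]
    simp
  have := mem_sInter.1 hsupp (Cl (Sum.inl D'))ᶜ
    ⟨(isClopen_Cl _).isOpen.isClosed_compl, hC⟩
  exact this rfl

/-- **Theorem.** There is a compact Hausdorff space with a point which avoids measures but does
not avoid ccc spaces. -/
theorem result : ∃ (X : Type) (_ : TopologicalSpace X) (_ : MeasurableSpace X)
    (_ : BorelSpace X) (x : X), CompactSpace X ∧ T2Space X ∧ AvoidsMeasures x ∧ ¬ AvoidsCCC x :=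
  ⟨X, inferInstance, inferInstance, inferInstance, x, compactSpace_X, t2Space_X, avoids,
    fun h => h _ ccc_range x_not_mem x_mem_closure⟩

end Pool.Agent.Results.MP_843a88_gt.AvoidMeasuresNotCCC
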